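import Mathlib

set_option autoImplicit false

namespace Pool.Agent.Results.MP_ec2f19_co.Counter
open Finset

open Classical in
/-- the number of edges `v x` of colour `γ` with `x` in `X` -/
noncomputable def d {V : Type} [Fintype V] (G : SimpleGraph V) (c : Sym2 V → Bool) (γ : Bool)
    (X : Set V) (v : V) : ℕ :=
  (univ.filter fun x => x ∈ X ∧ G.Adj v x ∧ c s(v, x) = γ).card

abbrev W := Fin 4 ⊕ (Fin 6 × Bool × Fin 3)

def ha : Fin 6 → Fin 4 := ![0, 0, 0, 1, 1, 2]
def hb : Fin 6 → Fin 4 := ![1, 2, 3, 2, 3, 3]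

def nx (t : Bool) (j : Fin 3) : Fin 3 := if t then j + 1 else j

def rel (γ : Bool) : W → W → Bool
  | .inr (k, t, _), .inl a => (γ != t) && (a == ha k || a == hb k)
  | .inr (k, t, j), .inr (k', t', j') =>
    k == k' && γ == t && (if t == t' then j != j' else j' == nx t j)
  | _, _ => false

def adj (γ : Bool) (u v : W) : Bool := rel γ u v || rel γ v u

def G : SimpleGraph W where
  Adj u v := adj true u v = true ∨ adj false u v = true
  symm := ⟨fun u v h => by simp only [adj, Bool.or_eq_true] at h ⊢; tauto⟩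
  loopless := ⟨by decide +kernel⟩

def c : Sym2 W → Bool := Sym2.lift ⟨adj true, fun u v => Bool.or_comm _ _⟩

lemma key : ∀ γ u v, ((adj true u v = true ∨ adj false u v = true) ∧ adj true u v = γ) ↔
    adj γ u v = true := by decide +kernel

lemma d_eq (γ : Bool) (X : Set W) [DecidablePred (· ∈ X)] (v : W) :
    d G c γ X v = ((univ.filter fun x => adj γ v x = true).filter (· ∈ X)).card := by
  unfold d
  congr 1
  ext x
  simp only [mem_filter, mem_univ, true_and, ← key γ v x, and_comm]
  rfl

lemma deg : ∀ v, (univ.filter fun x => adj true v x = true).card =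
    (univ.filter fun x => adj false v x = true).card := by decide +kernel

lemma n1 : ∀ k t j, (univ.filter fun x => adj t (.inr (k, t, j)) x = true) =
    {.inr (k, t, j + 1), .inr (k, t, j + 2), .inr (k, !t, nx t j)} := by decide +kernel

lemma n2 : ∀ k t j, (univ.filter fun x => adj (!t) (.inr (k, t, j)) x = true) =
    {.inl (ha k), .inl (hb k), .inr (k, !t, if t then j else j + 2)} := by decide +kernel

lemma three (p : W → Fin 3) (q : Fin 3) (x y z : W) (h1 : x ≠ y) (h2 : x ≠ z) (h3 : y ≠ z)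
    (h : (({x, y, z} : Finset W).filter (· ∈ {w | p w = q})).card ≤
      (({x, y, z} : Finset W).filter (· ∈ {w | p w = q}ᶜ)).card) :
    ¬(p x = q ∧ p y = q) ∧ ¬(p x = q ∧ p z = q) ∧ ¬(p y = q ∧ p z = q) := by
  rw [card_filter, card_filter, sum_insert (by simp [*]), sum_insert (by simp [*]), sum_insert (by simp [*]),
    sum_insert (by simp [*]), sum_singleton, sum_singleton] at h
  by_cases a : p x = q <;> by_cases b : p y = q <;> by_cases e : p z = q <;> simp_all

lemma gad : ∀ (q : Fin 3) (f : Bool → Fin 3 → Fin 3), (∀ t j, f t j ≠ q) →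
    ¬∀ t j, ¬(f t (j + 1) = f t j ∧ f t (j + 2) = f t j) ∧ ¬(f t (j + 1) = f t j ∧ f (!t) (nx t j) = f t j) ∧
      ¬(f t (j + 2) = f t j ∧ f (!t) (nx t j) = f t j) := by decide +kernel

theorem result : ∃ (V : Type) (_ : Fintype V) (G : SimpleGraph V) (c : Sym2 V → Bool),
    (∀ v, d G c true Set.univ v = d G c false Set.univ v) ∧
    ¬∃ p : V → Fin 3, ∀ γ v, d G c γ {x | p x = p v} v ≤ d G c γ {x | p x = p v}ᶜ v := by
  refine ⟨W, inferInstance, G, c, fun v => ?_, ?_⟩
  · simpa [d_eq] using deg v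
  rintro ⟨p, hp⟩
  have e : ∀ g : Fin 4 → Fin 3, ∃ k, g (ha k) = g (hb k) := by decide +kernel
  obtain ⟨k, hk⟩ := e fun a => p (.inl a)
  refine gad (p (.inl (ha k))) (fun t j => p (.inr (k, t, j))) (fun t j h => ?_) fun t j => ?_
  · have := hp (!t) (.inr (k, t, j))
    rw [d_eq, d_eq, n2] at this
    have e2 : ∀ k, ha k ≠ hb k := by decide
    exact (three p _ _ _ _ (by simpa using e2 k) (by simp) (by simp) this).1 ⟨h.symm, hk.symm.trans h.symm⟩
  · have := hp t (.inr (k, t, j))
    rw [d_eq, d_eq, n1] at this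
    exact three p _ _ _ _ (by simp) (by simp) (by simp) this

end Pool.Agent.Results.MP_ec2f19_co.Counter
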